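import Pool.Agent.H.MP_49e1e0_lc.C

set_option autoImplicit false

namespace Pool.Agent.Results.MP_49e1e0_lc.ThreeHalves

open Finset H.MP_49e1e0_lc

def NonRed {r n : ℕ} (P : Set (Fin r → Bool)) (I : Finset (Fin r → Fin n)) : Prop :=
  ∀ C ∈ I, ∃ σ : Fin n → Bool, σ ∘ C ∉ P ∧ ∀ C' ∈ I, C' ≠ C → σ ∘ C' ∈ P

open Classical in
noncomputable def NRD {r : ℕ} (P : Set (Fin r → Bool)) (n : ℕ) : ℕ :=
  (univ.filter fun I : Finset (Fin r → Fin n) => NonRed P I).sup card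

def bz (x : Bool) : F := if x then 1 else 0

def fi : Fin 3 → Fin 6 := ![0, 0, 1]
def se : Fin 3 → Fin 6 := ![1, 2, 2]
def th : Fin 3 → Fin 6 := ![3, 4, 5]

def Q (t : Fin 6 → Bool) : Prop := ∀ j, bz (t (fi j)) + bz (t (se j)) + bz (t (th j)) = 0

instance : DecidablePred Q := fun _ => by unfold Q; infer_instance

def Z (t : Fin 6 → Bool) : Prop := bz (t 0) = 0 ∧ bz (t 1) = 0 ∧ bz (t 2) = 0

instance : DecidablePred Z := fun _ => by unfold Z; infer_instance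

def Gf : Fin 6 → Bool → Bool → Bool := ![fun x _ => !x, fun x _ => !x, fun x _ => !x, xor, xor, xor]
def f1 : Fin 6 → Fin 3 := ![0, 1, 2, 0, 0, 1]
def f2 : Fin 6 → Fin 3 := ![0, 1, 2, 1, 2, 2]

theorem g2 : ∀ x : Fin 3 → Bool, (Q (fun t => Gf t (x (f1 t)) (x (f2 t))) ∧
    ¬Z (fun t => Gf t (x (f1 t)) (x (f2 t)))) ↔ ¬∀ i, x i := by
  decide +kernel

theorem low (n m : ℕ) (h : 6 * (m * m) ≤ n) : m ^ 3 ≤ NRD {t | Q t ∧ ¬Z t} n := by
  classical
  obtain ⟨e⟩ : Nonempty (Fin 6 × Fin m × Fin m ↪ Fin n) :=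
    Function.Embedding.nonempty_of_card_le (by simpa using h)
  let cl : (Fin 3 → Fin m) → Fin 6 → Fin n := fun s t => e (t, s (f1 t), s (f2 t))
  have h1 : ∀ s, ∃ ψ : Fin n → Bool, ∀ s', ψ ∘ cl s' ∈ {t | Q t ∧ ¬Z t} ↔ s' ≠ s :=
    fun s => by
      refine ⟨Function.extend e (fun p => Gf p.1 (p.2.1 = s (f1 p.1)) (p.2.2 = s (f2 p.1)))
        fun _ => false, fun s' => ?_⟩
      have := g2 fun i => s' i = s i
      simp only [Set.mem_ofPred_eq, Function.comp_def, cl, e.injective.extend_apply]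
      simpa [funext_iff] using this
  have h2 : Function.Injective cl := fun s s' k => by
    obtain ⟨ψ, h⟩ := h1 s
    exact by_contra fun l => (h s).1 (k ▸ (h s').2 (Ne.symm l)) rfl
  refine le_trans (by simp [card_image_of_injective _ h2])
    (le_sup (f := card) (b := univ.image cl) (mem_filter.2 ⟨mem_univ _, fun c hc => ?_⟩))
  obtain ⟨s, -, rfl⟩ := mem_image.1 hc
  obtain ⟨ψ, h⟩ := h1 s
  refine ⟨ψ, fun l => (h s).1 l rfl, fun c hc l => ?_⟩
  obtain ⟨s', -, rfl⟩ := mem_image.1 hc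
  exact (h s').2 fun k => l (k ▸ rfl)

theorem sol : ∀ x y z : F, x + y + z = 0 → x + y = z := by decide

theorem up (n : ℕ) (q : ℝ) (hq : 1 ≤ q) (hn : (n : ℝ) ≤ q ^ 8) :
    (NRD {t | Q t ∧ ¬Z t} n : ℝ) ≤ 4249 * q ^ 12 := by
  classical
  obtain ⟨I, hI, k⟩ := exists_mem_eq_sup (univ.filter fun I : Finset (Fin 6 → Fin n) =>
    NonRed {t | Q t ∧ ¬Z t} I) ⟨∅, by simp [NonRed]⟩ card
  rw [NRD, k]
  choose! σ h1 h2 using (mem_filter.1 hI).2
  simp only [Set.mem_ofPred_eq, not_and, not_not] at h1 h2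
  let J := I.filter fun C => Q (σ C ∘ C)
  let L : Fin 3 → Finset (Fin 6 → Fin n) := fun j => I.filter fun C =>
    bz (σ C (C (fi j))) + bz (σ C (C (se j))) + bz (σ C (C (th j))) ≠ 0
  have a1 : ∀ j, (L j).card ≤ n := fun j => by
    have := cardle (R := F) (L j) univ (fun x C => bz (σ C x)) fun l hl C hC => ?_
    · simpa using this
    have e1 : ∑ C' ∈ L j, l C' *
        (bz (σ C' (C (fi j))) + bz (σ C' (C (se j))) + bz (σ C' (C (th j)))) = 0 := by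
      simp only [mul_add, sum_add_distrib, hl _ (mem_univ _), add_zero]
    rw [sum_eq_single_of_mem C hC] at e1
    · exact (mul_eq_zero.1 e1).resolve_right (mem_filter.1 hC).2
    · intro C' hC' hne
      have := (h2 C' (mem_filter.1 hC').1 C (mem_filter.1 hC).1 hne.symm).1 j
      simp only [Function.comp_apply] at this
      rw [this, mul_zero]
  have a2 : I ⊆ (univ.biUnion L) ∪ J := fun C hC => by
    by_cases h : Q (σ C ∘ C)
    · exact mem_union_right _ (mem_filter.2 ⟨hC, h⟩)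
    · simp only [Q, not_forall] at h
      obtain ⟨j, hj⟩ := h
      exact mem_union_left _ (mem_biUnion.2 ⟨j, mem_univ _, mem_filter.2 ⟨hC, hj⟩⟩)
  have a3 : I.card ≤ 3 * n + J.card := by
    refine (card_le_card a2).trans ((card_union_le _ _).trans (Nat.add_le_add_right ?_ _))
    simpa using card_biUnion_le_card_mul univ L n fun j _ => a1 j
  let g : Fin n → J → F := fun x C => bz (σ C x)
  have hQ : ∀ C ∈ J, ∀ j, g (C (fi j)) + g (C (se j)) = g (C (th j)) := fun C hC j => by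
    funext C'
    refine sol _ _ _ ?_
    by_cases h : C = C'
    · exact (h ▸ (mem_filter.1 C'.2).2 : Q (σ C' ∘ C)) j
    · exact (h2 C' (mem_filter.1 C'.2).1 C (mem_filter.1 hC).1 h).1 j
  have a4 := main (G := J → F) (univ : Finset J) (fun C => g (C.1 0)) (fun C => g (C.1 1))
    (fun C => g (C.1 2)) (fun C => LinearMap.proj C) (fun C _ C' _ => ?_) (univ.image g)
    (fun C _ => ?_) q hq (le_trans (by exact_mod_cast card_image_le.trans (by simp)) hn)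
  · have a5 : (I.card : ℝ) ≤ 3 * n + J.card := by exact_mod_cast a3
    have d4 : q ^ 8 ≤ q ^ 12 := pow_le_pow_right₀ hq (by norm_num)
    simp only [card_univ, Fintype.card_coe] at a4
    linarith
  · change Z (σ C ∘ C') ↔ _
    constructor
    · intro h
      by_contra hne
      exact (h2 C (mem_filter.1 C.2).1 C' (mem_filter.1 C'.2).1
        fun k => hne (Subtype.ext k.symm)).2 h
    · rintro rfl
      exact h1 C (mem_filter.1 C.2).1 (mem_filter.1 C.2).2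
  · have m : ∀ x, g x ∈ univ.image g := fun x => mem_image_of_mem _ (mem_univ _)
    exact ⟨m _, m _, m _, (hQ C C.2 0).symm ▸ m _, (hQ C C.2 1).symm ▸ m _,
      (hQ C C.2 2).symm ▸ m _⟩

theorem result : ∃ (r : ℕ) (P : Set (Fin r → Bool)) (β : ℚ), 4 ≤ r ∧ (∀ k : ℕ, β ≠ k) ∧
    ∃ c C : ℝ, 0 < c ∧ 0 < C ∧ ∃ n₀ : ℕ, ∀ n ≥ n₀,
      c * (n : ℝ) ^ (β : ℝ) ≤ NRD P n ∧ (NRD P n : ℝ) ≤ C * (n : ℝ) ^ (β : ℝ) := by
  refine ⟨6, {t | Q t ∧ ¬Z t}, 3 / 2, by norm_num, fun k h => ?_, 1 / 125, 4249, by norm_num,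
    by norm_num, 6, fun n hn => ?_⟩
  · have : (3 : ℚ) = 2 * k := by linarith
    have : 3 = 2 * k := by exact_mod_cast this
    omega
  have n1 : (1 : ℝ) ≤ n := by exact_mod_cast (by omega : 1 ≤ n)
  have n0 : (0 : ℝ) ≤ n := by positivity
  have e1 : ((n : ℝ) ^ (1 / 8 : ℝ)) ^ 8 = n := by
    rw [← Real.rpow_natCast, ← Real.rpow_mul n0]; norm_num
  have e2 : ((n : ℝ) ^ (1 / 8 : ℝ)) ^ 12 = (n : ℝ) ^ (((3 / 2 : ℚ)) : ℝ) := by
    rw [← Real.rpow_natCast, ← Real.rpow_mul n0]; norm_num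
  have e3 : 1 ≤ (n : ℝ) ^ (1 / 8 : ℝ) := Real.one_le_rpow n1 (by norm_num)
  rw [← e2]
  refine ⟨?_, up n _ e3 e1.ge⟩
  set q := (n : ℝ) ^ (1 / 8 : ℝ)
  set m := Nat.sqrt (n / 6)
  have m1 : m * m ≤ n / 6 := Nat.sqrt_le _
  have m2 : n / 6 < (m + 1) * (m + 1) := Nat.lt_succ_sqrt _
  have m3 : 1 ≤ m := Nat.le_sqrt.2 (by omega)
  have m4 : n ≤ 25 * (m * m) := by
    have : n < 6 * (n / 6 + 1) := by omega
    nlinarith
  have m5 : ((m ^ 3 : ℕ) : ℝ) ≤ NRD {t | Q t ∧ ¬Z t} n := Nat.cast_le.2 (low n m (by omega))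
  have m6 : (n : ℝ) ≤ 25 * (m * m) := by exact_mod_cast m4
  have m7 : q ^ 4 ≤ 5 * m := (abs_le_of_sq_le_sq' (by nlinarith) (by positivity)).2
  have m8 : (q ^ 4) ^ 3 ≤ (5 * m : ℝ) ^ 3 := by gcongr
  push_cast at m5
  nlinarith

end Pool.Agent.Results.MP_49e1e0_lc.ThreeHalves
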